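import Pool.Agent.X20.Tr.Use

/-!
# Equidistribution of the powers of `e` and `π` at the exponents `⌊α n ^ c⌋`

From Mathlib: `dimH E`: the Hausdorff dimension; `⌊x⌋₊`: the integer part; `Int.fract x`: the fractional part;
`Finset.Icc 1 N` and `Finset.Ioc 0 N`: the integers from `1` to `N`.
-/

set_option autoImplicit false

namespace Pool.Agent.Results.MP_9056e9_nt.AlongDilatedPowers

open Finset Filter
open Pool.Agent.X20.Tr
open Pool.Agent.Y854.PS (ms xs)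

/-- The sequence `u 1, u 2, …` is equidistributed modulo one (the definition is the one of `S17751`). -/
def Equidistributed (u : ℕ → ℝ) : Prop :=
  ∀ a b : ℝ, 0 ≤ a → a < b → b ≤ 1 →
    Tendsto (fun N : ℕ => (((Icc 1 N).filter (fun n : ℕ => a ≤ Int.fract (u n) ∧ Int.fract (u n) < b)).card : ℝ)
      / (N : ℝ)) atTop (nhds (b - a))

/-- the integers `m` for which the fractional part of `u m` is in `[a, b)` -/
def J (u : ℕ → ℝ) (a b : ℝ) : Set ℕ := {m | a ≤ Int.fract (u m) ∧ Int.fract (u m) < b}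

lemma icc_count (u : ℕ → ℝ) (a b : ℝ) (N : ℕ) :
    ((Icc 1 N).filter (fun n : ℕ => a ≤ Int.fract (u n) ∧ Int.fract (u n) < b)).card = cnt (J u a b) N := by
  unfold cnt
  exact card_filt _ fun x => Iff.rfl

lemma cnt_mono (u : ℕ → ℝ) {a b a' b' : ℝ} (h1 : a' ≤ a) (h2 : b ≤ b') (N : ℕ) :
    cnt (J u a b) N ≤ cnt (J u a' b') N := by
  classical
  unfold cnt
  apply card_le_card
  intro m hm
  rw [mem_filter] at hm ⊢
  exact ⟨hm.1, h1.trans hm.2.1, lt_of_lt_of_le hm.2.2 h2⟩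

/-- intervals with rational end points suffice -/
lemma equi_rat (u : ℕ → ℝ) (h : ∀ a b : ℚ, 0 ≤ a → a < b → b ≤ 1 →
    Tendsto (fun N : ℕ => (cnt (J u a b) N : ℝ) / N) atTop (nhds ((b : ℝ) - a))) : Equidistributed u := by
  intro a b ha hab hb
  have e : (fun N : ℕ => (((Icc 1 N).filter (fun n : ℕ => a ≤ Int.fract (u n) ∧ Int.fract (u n) < b)).card : ℝ)
      / (N : ℝ)) = fun N : ℕ => (cnt (J u a b) N : ℝ) / N := by
    funext N
    rw [icc_count]
  rw [e, Metric.tendsto_atTop]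
  intro ε0 hε0
  obtain ⟨ε, hε⟩ : ∃ ε : ℝ, ε = min (ε0 / 4) ((b - a) / 4) := ⟨_, rfl⟩
  have hε1 : 0 < ε := by
    rw [hε]
    exact lt_min (by positivity) (by linarith)
  have hε2 : ε ≤ ε0 / 4 := by rw [hε]; exact min_le_left _ _
  have hε3 : ε ≤ (b - a) / 4 := by rw [hε]; exact min_le_right _ _
  obtain ⟨a1, h1, h2, h3⟩ : ∃ a1 : ℚ, 0 ≤ a1 ∧ (a1 : ℝ) ≤ a ∧ a - ε < a1 := by
    rcases ha.eq_or_lt with h0 | h0
    · refine ⟨0, le_rfl, ?_, ?_⟩
      · rw [← h0]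
        simp
      · rw [← h0]
        push_cast
        linarith
    · obtain ⟨q, hq1, hq2⟩ := exists_rat_btwn (show max 0 (a - ε) < a from max_lt h0 (by linarith))
      refine ⟨q, ?_, hq2.le, lt_of_le_of_lt (le_max_right _ _) hq1⟩
      have : (0 : ℝ) < q := lt_of_le_of_lt (le_max_left _ _) hq1
      exact_mod_cast this.le
  obtain ⟨b1, h4, h5, h6⟩ : ∃ b1 : ℚ, b1 ≤ 1 ∧ b ≤ (b1 : ℝ) ∧ (b1 : ℝ) < b + ε := by
    rcases hb.eq_or_lt with h0 | h0
    · refine ⟨1, le_rfl, ?_, ?_⟩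
      · rw [h0]
        simp
      · rw [h0]
        push_cast
        linarith
    · obtain ⟨q, hq1, hq2⟩ := exists_rat_btwn (show b < min 1 (b + ε) from lt_min h0 (by linarith))
      refine ⟨q, ?_, hq1.le, lt_of_lt_of_le hq2 (min_le_right _ _)⟩
      have : (q : ℝ) < 1 := lt_of_lt_of_le hq2 (min_le_left _ _)
      exact_mod_cast this.le
  obtain ⟨a2, h7, h8⟩ := exists_rat_btwn (show a < a + ε by linarith)
  obtain ⟨b2, h9, h10⟩ := exists_rat_btwn (show b - ε < b by linarith)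
  have hout := h a1 b1 h1 (by
    have : (a1 : ℝ) < b1 := by linarith
    exact_mod_cast this) h4
  have hin := h a2 b2 (by
    have : (0 : ℝ) < a2 := by linarith
    exact_mod_cast this.le) (by
    have : (a2 : ℝ) < b2 := by linarith
    exact_mod_cast this) (by
    have : (b2 : ℝ) < 1 := by linarith
    exact_mod_cast this.le)
  have e1 := hout.eventually (gt_mem_nhds (show (b1 : ℝ) - a1 < b1 - a1 + ε by linarith))
  have e2 := hin.eventually (lt_mem_nhds (show (b2 : ℝ) - a2 - ε < b2 - a2 by linarith))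
  obtain ⟨N₀, hN⟩ := (e1.and e2).exists_forall_of_atTop
  refine ⟨N₀, fun N hN' => ?_⟩
  obtain ⟨k1, k2⟩ := hN N hN'
  have k3 : (cnt (J u a b) N : ℝ) / N ≤ (cnt (J u a1 b1) N : ℝ) / N := by
    apply div_le_div_of_nonneg_right _ (Nat.cast_nonneg _)
    exact_mod_cast cnt_mono u h2 h5 N
  have k4 : (cnt (J u a2 b2) N : ℝ) / N ≤ (cnt (J u a b) N : ℝ) / N := by
    apply div_le_div_of_nonneg_right _ (Nat.cast_nonneg _)
    exact_mod_cast cnt_mono u h7.le h10.le N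
  rw [Real.dist_eq, abs_lt]
  constructor <;> linarith

lemma triple_le {κ : ℝ} (hκ : 0 < κ) : ∃ N₀ : ℕ, 1 ≤ N₀ ∧ ∀ N : ℕ, N₀ ≤ N → ∀ q k l : ℕ, k ≤ q → l ≤ q →
    (q : ℝ) ≤ (N : ℝ) ^ (κ / 8) → ((Nat.pair q (Nat.pair k l) : ℕ) : ℝ) ≤ (N : ℝ) ^ κ := by
  obtain ⟨N₂, h2⟩ := (((tend_pow (κ / 8) (by positivity)).eventually_ge_atTop 2).and
    (eventually_ge_atTop 1)).exists_forall_of_atTop
  refine ⟨max N₂ 1, le_max_right _ _, fun N hN q k l hk hl hq => ?_⟩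
  obtain ⟨k3, k2⟩ := h2 N ((le_max_left _ _).trans hN)
  have hN1 : (1 : ℝ) ≤ N := by exact_mod_cast k2
  have hN0 : (0 : ℝ) < N := by linarith
  have h3 : Nat.pair k l < (q + 1) ^ 2 := by
    refine lt_of_lt_of_le (Nat.pair_lt_max_add_one_sq k l) ?_
    exact Nat.pow_le_pow_left (by have := max_le hk hl; omega) 2
  have h4 : Nat.pair q (Nat.pair k l) ≤ (q + 1) ^ 4 := by
    refine (Nat.pair_lt_max_add_one_sq q _).le.trans ?_
    have h5 : max q (Nat.pair k l) + 1 ≤ (q + 1) ^ 2 := by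
      have h6 : q < (q + 1) ^ 2 := by nlinarith
      have := max_lt h6 h3
      omega
    calc (max q (Nat.pair k l) + 1) ^ 2 ≤ ((q + 1) ^ 2) ^ 2 := Nat.pow_le_pow_left h5 2
      _ = (q + 1) ^ 4 := by ring
  have h5 : ((Nat.pair q (Nat.pair k l) : ℕ) : ℝ) ≤ ((q : ℝ) + 1) ^ 4 := by exact_mod_cast h4
  refine h5.trans ?_
  have h8 : (N : ℝ) ^ κ = ((N : ℝ) ^ (κ / 8)) ^ 8 := by
    rw [← Real.rpow_natCast, ← Real.rpow_mul hN0.le]
    congr 1
    push_cast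
    ring
  rw [h8]
  obtain ⟨y, hy⟩ : ∃ y : ℝ, y = (N : ℝ) ^ (κ / 8) := ⟨_, rfl⟩
  rw [← hy] at k3 hq ⊢
  have h10 : (q : ℝ) + 1 ≤ y ^ 2 := by nlinarith
  calc ((q : ℝ) + 1) ^ 4 ≤ (y ^ 2) ^ 4 := pow_le_pow_left₀ (by positivity) h10 4
    _ = y ^ 8 := by ring

open Classical in
/-- For every real `c > 1` there is `κ > 0` such that for every countable set `S` of real numbers (for instance
`S = {e, π}`) there is a set `E` of real numbers of Hausdorff dimension at most `1 - κ` such that for every real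
`α > 0` outside `E` and EVERY `x ∈ S`:

* the sequence `x ^ n`, `n = 1, 2, 3, …` is equidistributed modulo one if and only if the sequence `x ^ ⌊α n ^ c⌋`,
  `n = 1, 2, 3, …` is. For `x = e` and `x = π`: Q1 and Q2 are equivalent to the same questions for the sparse sequence
  of the exponents `⌊α n ^ c⌋`;
* (power saving) for all large `N`, ALL `q ≤ N ^ κ` and all `k < l ≤ q` the number of the `n ≤ N` for which the
  fractional part of `x ^ ⌊α n ^ c⌋` is in `[k / q, l / q)` is, up to `N ^ (1 - κ)`, the number of all exponents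
  `m ≤ α N ^ c` for which the fractional part of `x ^ m` is in `[k / q, l / q)`, counted with the weights
  `(1 / c) α ^ (-1 / c) m ^ (1 / c - 1)` (the density of the sequence at `m`). -/
theorem result (c : ℝ) (hc : 1 < c) : ∃ κ : ℝ, 0 < κ ∧ κ < 1 ∧ ∀ S : Set ℝ, S.Countable →
    ∃ E : Set ℝ, dimH E ≤ ENNReal.ofReal (1 - κ) ∧ ∀ α : ℝ, 0 < α → α ∉ E → ∀ x ∈ S,
      (Equidistributed (fun n => x ^ n) ↔ Equidistributed (fun n => x ^ ⌊α * (n : ℝ) ^ c⌋₊)) ∧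
      (∃ N₀ : ℕ, ∀ N : ℕ, N₀ ≤ N → ∀ q k l : ℕ, (q : ℝ) ≤ (N : ℝ) ^ κ → k < l → l ≤ q →
        |(((Icc 1 N).filter (fun n : ℕ => (k : ℝ) / q ≤ Int.fract (x ^ ⌊α * (n : ℝ) ^ c⌋₊) ∧
            Int.fract (x ^ ⌊α * (n : ℝ) ^ c⌋₊) < (l : ℝ) / q)).card : ℝ) -
          ∑ m ∈ (Ioc 0 ⌊α * (N : ℝ) ^ c⌋₊).filter
              (fun m : ℕ => (k : ℝ) / q ≤ Int.fract (x ^ m) ∧ Int.fract (x ^ m) < (l : ℝ) / q),
            1 / c * α ^ (-(1 / c)) * (m : ℝ) ^ (1 / c - 1)| ≤ (N : ℝ) ^ (1 - κ)) := by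
  obtain ⟨κ, hκ0, hκ1, H⟩ := use c hc
  refine ⟨κ / 8, by positivity, by linarith, fun S hS => ?_⟩
  rcases S.eq_empty_or_nonempty with hemp | hne
  · refine ⟨∅, by simp, fun α _ _ x hx => ?_⟩
    rw [hemp] at hx
    exact absurd hx (Set.notMem_empty x)
  obtain ⟨x, hx⟩ := hS.exists_eq_range hne
  obtain ⟨E, hE, h⟩ := H (fun i t => J (fun n => x i ^ n)
    (((Nat.unpair (Nat.unpair t).2).1 : ℝ) / ((Nat.unpair t).1 : ℝ))
    (((Nat.unpair (Nat.unpair t).2).2 : ℝ) / ((Nat.unpair t).1 : ℝ))) (ℕ × ℚ × ℚ)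
    (fun y => J (fun n => x y.1 ^ n) y.2.1 y.2.2)
  refine ⟨E, hE.trans (ENNReal.ofReal_le_ofReal (by linarith)), fun α hα hαE y hy => ?_⟩
  obtain ⟨h1, _, h3⟩ := h α hα hαE
  rw [hx] at hy
  obtain ⟨i, rfl⟩ := hy
  have key : ∀ (a b : ℚ) (ρ : ℝ),
      Tendsto (fun N : ℕ => (cnt (J (fun n => x i ^ n) a b) N : ℝ) / N) atTop (nhds ρ) ↔
      Tendsto (fun N : ℕ => (cnt (J (fun n => x i ^ ⌊α * (n : ℝ) ^ c⌋₊) a b) N : ℝ) / N) atTop (nhds ρ) := by
    intro a b ρ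
    have h4 := nat_iff hc hα hκ0 hκ1 (h3 (i, a, b)) ρ
    have e : (fun N : ℕ => (cnt (J (fun n => x i ^ ⌊α * (n : ℝ) ^ c⌋₊) a b) N : ℝ) / N) =
        fun N : ℕ => (hit c α (J (fun n => x i ^ n) a b) N : ℝ) / N := by
      funext N
      congr 2
    rw [e]
    exact h4
  refine ⟨⟨fun h4 => equi_rat _ fun a b h5 h6 h7 => ?_, fun h4 => equi_rat _ fun a b h5 h6 h7 => ?_⟩, ?_⟩
  · have := h4 a b (by exact_mod_cast h5) (by exact_mod_cast h6) (by exact_mod_cast h7)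
    rw [← key]
    refine this.congr fun N => ?_
    rw [icc_count]
  · have := h4 a b (by exact_mod_cast h5) (by exact_mod_cast h6) (by exact_mod_cast h7)
    rw [key]
    refine this.congr fun N => ?_
    rw [icc_count]
  · obtain ⟨N₁, _, h4⟩ := h1 i
    obtain ⟨N₂, hN₂, h5⟩ := triple_le hκ0
    refine ⟨max N₁ N₂, fun N hN q k l hq hkl hl => ?_⟩
    have hN1 : (1 : ℝ) ≤ N := by exact_mod_cast hN₂.trans ((le_max_right _ _).trans hN)
    have h6 := h4 N ((le_max_left _ _).trans hN) (Nat.pair q (Nat.pair k l))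
      (h5 N ((le_max_right _ _).trans hN) q k l (by omega) hl hq)
    simp only [Nat.unpair_pair] at h6
    have h11 : (N : ℝ) ^ (1 - κ) ≤ (N : ℝ) ^ (1 - κ / 8) := Real.rpow_le_rpow_of_exponent_le hN1 (by linarith)
    have e1 := hit_form c α (fun m : ℕ => (k : ℝ) / q ≤ Int.fract (x i ^ m) ∧ Int.fract (x i ^ m) < (l : ℝ) / q) N
      (dp := inferInstance)
    have e2 := wsum_form c α (fun m : ℕ => (k : ℝ) / q ≤ Int.fract (x i ^ m) ∧ Int.fract (x i ^ m) < (l : ℝ) / q) N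
      (dp := inferInstance)
    rw [e1, e2]
    exact h6.trans h11

end Pool.Agent.Results.MP_9056e9_nt.AlongDilatedPowers
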