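import Pool.Agent.Results.MP_9056e9_nt.ShortArcs
import Pool.Agent.Results.MP_9056e9_nt.AlmostAllExponents
import Pool.Agent.Results.MP_9056e9_nt.DigitsOfPowersOfE
import Pool.Agent.X174.WinN

/-!
# The powers `e^m` for all `m` in windows around thin sequences

Let `v ≥ 1` be a sequence with exponent of convergence at most `τ` (for `v_n = n ^ a` this is `1 / a`, for `v_n = b ^ n`
or `n!` it is `0`), `θ < 1` and `0 < δ ≤ 1`. Outside sets of `α > 0` of Hausdorff dimension at most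
`(1 - κ + τ) / (1 - θ)`, with explicit `κ = κ(δ) > 0`, the following holds for all but finitely many `n` and ALL integers
`m` with `|m - α v_n| ≤ v_n ^ θ`:

1. the distance of `e^m - ξ` to the nearest integer is at least `e^(-δ m)` (`ξ` any real number);
2. `|a e^m + P(m) - p / q| ≥ (|a| e^m)^(-δ) (Q + 1)^(-96 2^D / δ)` for all rational numbers `p / q` with `q ≤ Q`
   (`|a| ≥ 1`, `P` a real polynomial of degree at most `D`, `Q` any number);
3. every block of `L ≥ 2 δ m` consecutive digits of `a e^m + P(m)` in base `b`, between the leading digit of `a e^m` and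
   the `m / δ`-th digit after the point, has linear complexity larger than `δ² L / (50000 2^D)`.

The numbers of exceptions are from the starting results `ShortArcs`, `AlmostAllExponents` and `DigitsOfPowersOfE`, the
passage to windows from the starting module `Pool.Agent.Y854.GM.Win`.
-/

set_option autoImplicit false

namespace Pool.Agent.Results.MP_9056e9_nt.ExponentsInWindows

open Finset
open Pool.Agent.X174 (winN cumN)

/-- the exponent of convergence of the sequence `v` is at most `τ` -/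
def ExpLe (v : ℕ → ℝ) (τ : ℝ) : Prop := ∀ t : ℝ, τ < t → Summable (fun n : ℕ => (v n) ^ (-t))

/-- the digit of `x` in base `b` at the place `i` after the point (before the point for `i ≤ 0`) -/
noncomputable def digit (b : ℕ) (x : ℝ) (i : ℤ) : ℤ := ⌊x * (b : ℝ) ^ i⌋ % (b : ℤ)

/-- the linear complexity of the block of the digits of `x` at the places `u + 1, …, u + L`: the
least order `m` of a linear recurrence `s_(i+m) = c_0 s_i + … + c_(m-1) s_(i+m-1)` over `ℚ` which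
they satisfy -/
noncomputable def complexity (b : ℕ) (x : ℝ) (u : ℤ) (L : ℕ) : ℕ :=
  sInf {m | ∃ c : ℕ → ℚ, ∀ i : ℕ, 1 ≤ i → i + m ≤ L →
    (digit b x (u + (i + m : ℕ)) : ℚ) = ∑ j ∈ range m, c j * (digit b x (u + (i + j : ℕ)) : ℚ)}

/-- **Theorem.** Let `v ≥ 1` be a sequence of exponent of convergence at most `τ ≥ 0`, `θ < 1` and `0 < δ ≤ 1`.

(1) For every real number `ξ` there is a set `E` of Hausdorff dimension at most `(1 - δ² / 400 + τ) / (1 - θ)` such that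
for each `α > 0` outside `E`, for all but finitely many `n` and ALL integers `m ≥ 1` with `|m - α v_n| ≤ v_n ^ θ` the
distance of `e^m - ξ` to every integer is at least `e^(-δ m)`.

(2) For every `D`, every real `a` with `|a| ≥ 1` and every real polynomial `P` of degree at most `D` there is a set `E` of
dimension at most `(1 - δ² / (12800 2^D) + τ) / (1 - θ)` such that for each `α > 0` outside `E` and every `Q ≥ 1`, for
all but finitely many `n`, ALL integers `m ≥ 1` with `|m - α v_n| ≤ v_n ^ θ` and all rational numbers `p / q`,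
`1 ≤ q ≤ Q`, `|a e^m + P(m) - p / q| ≥ (|a| e^m)^(-δ) (Q + 1)^(-96 2^D / δ)`.

(3) For every `D`, `b ≥ 2`, every real `a ≠ 0` and every real polynomial `P` of degree at most `D` there is a set `E` of
dimension at most `(1 - δ⁴ / (13107200 2^D) + τ) / (1 - θ)` such that for each `α > 0` outside `E`, for all but finitely
many `n`, ALL integers `m ≥ 1` with `|m - α v_n| ≤ v_n ^ θ` and all `u`, `L` with `1 ≤ |a| e^m b^u`, `2 δ m ≤ L`,
`u + L ≤ m / δ`, the linear complexity of the digits of `a e^m + P(m)` at the places `u + 1, …, u + L` is larger than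
`δ² L / (50000 2^D)`.

(4), (5) The sequences `v_n = (n + 1) ^ a` and `v_n = b ^ n` have exponent of convergence at most `1 / a` and `0`. -/
theorem result :
    (∀ (v : ℕ → ℝ) (τ θ : ℝ), (∀ n, 1 ≤ v n) → 0 ≤ τ → ExpLe v τ → θ < 1 →
      ∀ δ : ℝ, 0 < δ → δ ≤ 1 → ∀ ξ : ℝ,
      ∃ E : Set ℝ, dimH E ≤ ENNReal.ofReal ((1 - δ ^ 2 / 400 + τ) / (1 - θ)) ∧
        ∀ α : ℝ, 0 < α → α ∉ E → ∃ n₀ : ℕ, ∀ n : ℕ, n₀ ≤ n →
          ∀ m : ℕ, 1 ≤ m → |(m : ℝ) - α * v n| ≤ (v n) ^ θ → ∀ b : ℤ,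
            Real.exp (-(δ * m)) ≤ |Real.exp m - ξ - b|) ∧
    (∀ (v : ℕ → ℝ) (τ θ : ℝ), (∀ n, 1 ≤ v n) → 0 ≤ τ → ExpLe v τ → θ < 1 →
      ∀ δ : ℝ, 0 < δ → δ ≤ 1 → ∀ (D : ℕ) (a : ℝ) (P : Polynomial ℝ), 1 ≤ |a| → P.natDegree ≤ D →
      ∃ E : Set ℝ, dimH E ≤ ENNReal.ofReal ((1 - δ ^ 2 / (12800 * 2 ^ D) + τ) / (1 - θ)) ∧
        ∀ α : ℝ, 0 < α → α ∉ E → ∀ Q : ℝ, 1 ≤ Q → ∃ n₀ : ℕ, ∀ n : ℕ, n₀ ≤ n →
          ∀ m : ℕ, 1 ≤ m → |(m : ℝ) - α * v n| ≤ (v n) ^ θ → ∀ (q : ℕ) (p : ℤ), 1 ≤ q → (q : ℝ) ≤ Q →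
            (|a| * Real.exp m) ^ (-δ) * (Q + 1) ^ (-(96 * 2 ^ D / δ)) ≤
              |a * Real.exp m + P.eval (m : ℝ) - p / q|) ∧
    (∀ (v : ℕ → ℝ) (τ θ : ℝ), (∀ n, 1 ≤ v n) → 0 ≤ τ → ExpLe v τ → θ < 1 →
      ∀ δ : ℝ, 0 < δ → δ ≤ 1 → ∀ (D b : ℕ) (a : ℝ) (P : Polynomial ℝ), 2 ≤ b → a ≠ 0 → P.natDegree ≤ D →
      ∃ E : Set ℝ, dimH E ≤ ENNReal.ofReal ((1 - δ ^ 4 / (13107200 * 2 ^ D) + τ) / (1 - θ)) ∧
        ∀ α : ℝ, 0 < α → α ∉ E → ∃ n₀ : ℕ, ∀ n : ℕ, n₀ ≤ n →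
          ∀ m : ℕ, 1 ≤ m → |(m : ℝ) - α * v n| ≤ (v n) ^ θ → ∀ (u : ℤ) (L : ℕ),
            1 ≤ |a| * Real.exp m * (b : ℝ) ^ u → 2 * δ * m ≤ L → (u : ℝ) + L ≤ m / δ →
            δ ^ 2 / (50000 * 2 ^ D) * L <
              (complexity b (a * Real.exp m + P.eval (m : ℝ)) u L : ℝ)) ∧
    (∀ a : ℝ, 0 < a → ExpLe (fun n : ℕ => ((n : ℝ) + 1) ^ a) (1 / a)) ∧
    (∀ b : ℝ, 1 < b → ExpLe (fun n : ℕ => b ^ n) 0) := by
  refine ⟨fun v τ θ hv hτ hE hθ δ hδ hδ1 ξ => ?_, fun v τ θ hv hτ hE hθ δ hδ hδ1 D a P ha hP => ?_,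
    fun v τ θ hv hτ hE hθ δ hδ hδ1 D b a P hb ha hP => ?_,
    fun κ hκ => Pool.Agent.Y854.GM.expLe_pow κ hκ, fun b hb => Pool.Agent.Y854.GM.expLe_geom b hb⟩
  · obtain ⟨A, hA, h⟩ := ShortArcs.result
    have hd2 : δ ^ 2 ≤ 1 := pow_le_one₀ hδ.le hδ1
    obtain ⟨E, h1, h2⟩ := winN (fun n => ∃ b : ℤ, |Real.exp n - ξ - b| < Real.exp (-(δ * n)))
      hv hτ hE (s := 1 - δ ^ 2 / 400) (by linarith) hθ (A / δ) (by positivity)
      (fun N hN => h δ hδ hδ1 N hN ξ)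
    refine ⟨E, h1, fun α hα hαE => ?_⟩
    obtain ⟨n₀, hn⟩ := h2 α hα hαE
    refine ⟨n₀, fun n hn1 m hm hw b => ?_⟩
    by_contra hcon
    push Not at hcon
    exact hn n hn1 m hm hw ⟨b, hcon⟩
  · obtain ⟨A, hA, h⟩ := AlmostAllExponents.result D
    have hd2 : δ ^ 2 ≤ 1 := pow_le_one₀ hδ.le hδ1
    have h2D : (1 : ℝ) ≤ 2 ^ D := one_le_pow₀ (by norm_num)
    have hs : 0 ≤ 1 - δ ^ 2 / (12800 * 2 ^ D) := by
      have : δ ^ 2 / (12800 * 2 ^ D) ≤ 1 := by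
        rw [div_le_one (by positivity)]
        linarith
      linarith
    have hj : ∀ j : ℕ, ∃ E : Set ℝ, dimH E ≤ ENNReal.ofReal ((1 - δ ^ 2 / (12800 * 2 ^ D) + τ) / (1 - θ)) ∧
        ∀ α : ℝ, 0 < α → α ∉ E → ∃ n0 : ℕ, ∀ n : ℕ, n0 ≤ n → ∀ m : ℕ, 1 ≤ m → |(m : ℝ) - α * v n| ≤ (v n) ^ θ →
          ¬ ∃ (q : ℕ) (p : ℤ), 1 ≤ q ∧ (q : ℝ) ≤ (j : ℝ) + 1 ∧
        |a * Real.exp m + P.eval (m : ℝ) - p / q| <
          (|a| * Real.exp m) ^ (-δ) * ((j : ℝ) + 1) ^ (-(96 * 2 ^ D / δ)) := fun j =>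
      winN (fun n : ℕ => ∃ (q : ℕ) (p : ℤ), 1 ≤ q ∧ (q : ℝ) ≤ (j : ℝ) + 1 ∧
        |a * Real.exp n + P.eval (n : ℝ) - p / q| <
          (|a| * Real.exp n) ^ (-δ) * ((j : ℝ) + 1) ^ (-(96 * 2 ^ D / δ)))
      hv hτ hE hs hθ (A / δ) (by positivity)
      (fun N hN => h δ a ((j : ℝ) + 1) P N hδ hδ1 ha (by
        have : (0 : ℝ) ≤ j := Nat.cast_nonneg j
        linarith) hP hN)
    choose E hE1 hE2 using hj
    refine ⟨⋃ j, E j, ?_, fun α hα hαE Q hQ => ?_⟩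
    · rw [dimH_iUnion]
      exact iSup_le hE1
    · obtain ⟨n₀, hn⟩ := hE2 ⌊Q⌋₊ α hα (fun h => hαE (Set.mem_iUnion.2 ⟨_, h⟩))
      refine ⟨n₀, fun n hn1 m hm hw q p hq hqQ => ?_⟩
      by_contra hcon
      push Not at hcon
      refine hn n hn1 m hm hw ⟨q, p, hq, ?_, hcon.trans_le ?_⟩
      · exact hqQ.trans (Nat.lt_floor_add_one Q).le
      · apply mul_le_mul_of_nonneg_left _ (by positivity)
        apply Real.rpow_le_rpow_of_nonpos (by positivity)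
        · have := Nat.floor_le (by linarith : (0 : ℝ) ≤ Q)
          linarith
        · have : 0 ≤ 96 * 2 ^ D / δ := by positivity
          linarith
  · obtain ⟨C, hC, h⟩ := DigitsOfPowersOfE.result D b hb δ hδ hδ1
    have hd4 : δ ^ 4 ≤ 1 := pow_le_one₀ hδ.le hδ1
    have h2D : (1 : ℝ) ≤ 2 ^ D := one_le_pow₀ (by norm_num)
    have hs : 0 < 1 - δ ^ 4 / (13107200 * 2 ^ D) := by
      have : δ ^ 4 / (13107200 * 2 ^ D) < 1 := by
        rw [div_lt_one (by positivity)]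
        linarith
      linarith
    have ha0 : 0 < |a| := abs_pos.2 ha
    obtain ⟨K1, hK1⟩ := exists_nat_ge (|Real.log (|a|)|)
    obtain ⟨B, hB, hcount⟩ := cumN (fun m : ℕ => ∃ (u : ℤ) (L : ℕ), 1 ≤ |a| * Real.exp m * (b : ℝ) ^ u ∧
        2 * δ * m ≤ L ∧ (u : ℝ) + L ≤ m / δ ∧
        (complexity b (a * Real.exp m + P.eval (m : ℝ)) u L : ℝ) ≤ δ ^ 2 / (50000 * 2 ^ D) * L)
      (1 - δ ^ 4 / (13107200 * 2 ^ D)) (C * 2 ^ (1 - δ ^ 4 / (13107200 * 2 ^ D))) hs (by positivity) (K1 + 1)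
      (fun K hK => by
        have hK1' : 1 ≤ 2 * K := by omega
        have hKr : |Real.log (|a|)| ≤ ((2 * K : ℕ) : ℝ) := by
          refine hK1.trans ?_
          exact_mod_cast (by omega : K1 ≤ 2 * K)
        have hlog := abs_le.1 hKr
        have h5 := h a P (2 * K) hK1' (by
          rw [← Real.exp_log ha0]
          exact Real.exp_le_exp.2 hlog.1) (by
          rw [← Real.exp_log ha0]
          exact Real.exp_le_exp.2 hlog.2) hP
        have hsub : {n : ℕ | K < n ∧ n ≤ 2 * K ∧ ∃ (u : ℤ) (L : ℕ), 1 ≤ |a| * Real.exp n * (b : ℝ) ^ u ∧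
            2 * δ * n ≤ L ∧ (u : ℝ) + L ≤ n / δ ∧
            (complexity b (a * Real.exp n + P.eval (n : ℝ)) u L : ℝ) ≤ δ ^ 2 / (50000 * 2 ^ D) * L} ⊆
          {n : ℕ | 1 ≤ n ∧ n ≤ 2 * K ∧ ∃ (u : ℤ) (L : ℕ),
            1 ≤ |a| * Real.exp n * (b : ℝ) ^ u ∧ δ * ((2 * K : ℕ) : ℝ) ≤ L ∧ (u : ℝ) + L ≤ ((2 * K : ℕ) : ℝ) / δ ∧
            (DigitsOfPowersOfE.complexity b (a * Real.exp n + P.eval (n : ℝ)) u L : ℝ) ≤
              δ ^ 2 / (50000 * 2 ^ D) * L} := by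
          rintro n ⟨h1, h2, u, L, h3, h4, h6, h7⟩
          have h8 : (K : ℝ) < n := by exact_mod_cast h1
          have h9 : (n : ℝ) ≤ ((2 * K : ℕ) : ℝ) := by exact_mod_cast h2
          refine ⟨by omega, h2, u, L, h3, ?_, ?_, h7⟩
          · push_cast
            nlinarith
          · refine h6.trans ?_
            exact div_le_div_of_nonneg_right h9 hδ.le
        have hfin : {n : ℕ | 1 ≤ n ∧ n ≤ 2 * K ∧ ∃ (u : ℤ) (L : ℕ),
            1 ≤ |a| * Real.exp n * (b : ℝ) ^ u ∧ δ * ((2 * K : ℕ) : ℝ) ≤ L ∧ (u : ℝ) + L ≤ ((2 * K : ℕ) : ℝ) / δ ∧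
            (DigitsOfPowersOfE.complexity b (a * Real.exp n + P.eval (n : ℝ)) u L : ℝ) ≤
              δ ^ 2 / (50000 * 2 ^ D) * L}.Finite := (Set.finite_Iic (2 * K)).subset fun n hn => hn.2.1
        refine le_trans (Nat.cast_le.2 (Set.ncard_le_ncard hsub hfin)) (h5.trans (le_of_eq ?_))
        push_cast
        rw [Real.mul_rpow (by norm_num) (Nat.cast_nonneg _)]
        ring)
    obtain ⟨E, h1, h2⟩ := winN _ hv hτ hE hs.le hθ B hB hcount
    refine ⟨E, h1, fun α hα hαE => ?_⟩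
    obtain ⟨n₀, hn⟩ := h2 α hα hαE
    refine ⟨n₀, fun n hn1 m hm hw u L h3 h4 h5 => ?_⟩
    by_contra hcon
    push Not at hcon
    exact hn n hn1 m hm hw ⟨u, L, h3, h4, h5, hcon⟩

end Pool.Agent.Results.MP_9056e9_nt.ExponentsInWindows
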