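import Pool.Agent.X121.TV.Shift

/-!
# The powers of `e + n` and of `π + n` for random integers `n`

Let `x` be `e`, `π` or any irrational number which is not a Liouville number, and let `n` be chosen at
random in an arbitrary interval `(M, M + H]` of `H` consecutive integers (no condition on `M`).  Then
for `N ≤ (log H)^{1/7}` the fractional parts of `(x + n)^2, …, (x + n)^N` behave like independent
uniformly distributed random variables, in the strong sense of total variation: divide `[0, 1)` into
`m ≤ exp((log H)^{1/10})` equal parts; the distance in total variation between the law of the parts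
which contain these fractional parts and the law of independent uniform choices is at most
`exp(-(log H)^{1/10})`.  (The exponent one has to be left out, the fractional part of `x + n` does not
depend on `n`.)  The same holds jointly for the powers of `x_1 + n, …, x_k + n` where
`x_j = β_j θ^{w_j}`, `θ = e` or `θ = π`, `β_j` real algebraic, if `1, x_1, …, x_k` are linearly
independent over `ℚ`.

In the phases `∑ h_i (x + n)^i` the leading coefficient is an integer, and modulo one the next
coefficient is an integral multiple of `x` which does not change under `n ↦ n + 1`.  The exponential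
sums are estimated by Vinogradov's mean value theorem with explicit constants (`Pool.Agent.Y957.VK` and
others, starting files), for degrees up to `(log H)^{1/7}`.
-/

set_option autoImplicit false

namespace Pool.Agent.Results.MP_9056e9_nt.IntegerTranslates

open Real

/-- For a random integer `n` from `H` consecutive integers the fractional parts of the powers
`(x_j + n)^i`, `2 ≤ i ≤ N + 1`, `1 ≤ j ≤ k`, are jointly close to independent uniform variables: for
every set `E` of `k × N` arrays with entries in `{0, …, m-1}`, the proportion of the `n` in `(M, M + H]`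
for which the array of the numbers `⌊m {(x_j + n)^i}⌋` is in `E` differs from `|E| / m^{k N}` by at most
`exp(-(log H)^{1/10})`. -/
def PowersRandom {k : ℕ} (x : Fin k → ℝ) : Prop :=
  ∃ H₀ : ℕ, ∀ H : ℕ, H₀ ≤ H → ∀ M N m : ℕ, 1 ≤ m → (N : ℝ) + 1 ≤ (log H) ^ (1 / 7 : ℝ) →
    (m : ℝ) ≤ exp ((log H) ^ (1 / 10 : ℝ)) → ∀ E : Finset (Fin k → Fin N → Fin m),
      |(((Finset.Ioc M (M + H)).filter fun n : ℕ => ∃ A ∈ E, ∀ (j : Fin k) (i : Fin N),
          ⌊m * Int.fract ((x j + (n : ℝ)) ^ ((i : ℕ) + 2))⌋₊ = (A j i : ℕ)).card : ℝ) / H -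
        E.card / (m : ℝ) ^ (k * N)| ≤ exp (-((log H) ^ (1 / 10 : ℝ)))

theorem of_jft {k : ℕ} {x : Fin k → ℝ} {c : ℝ} {τ : ℕ} (hc : 0 < c)
    (hx : Pool.Agent.X121.TV.JFT x c τ) : PowersRandom x := by
  obtain ⟨H₀, h⟩ := Pool.Agent.X121.TV.powers_rand hc hx
  refine ⟨H₀, fun H hH M N m hm hN hmH E => ?_⟩
  exact h H hH M N m hm (by exact_mod_cast hN) hmH E

/-- The powers of `x + n` are random for random integers `n`: (1), (2) for `x = e` and `x = π`,
(3) for every irrational number `x` which is not a Liouville number, (4) jointly for the numbers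
`x_j = β_j θ^{w_j}`, `θ = e` or `θ = π`, `β_j` real algebraic, if `1` and these numbers are linearly
independent over `ℚ`. -/
theorem result :
    PowersRandom ![exp 1] ∧ PowersRandom ![π] ∧
    (∀ x : ℝ, Irrational x → ¬ Liouville x → PowersRandom ![x]) ∧
    (∀ θ : ℝ, (θ = exp 1 ∨ θ = π) → ∀ (k : ℕ) (β : Fin k → ℝ) (w : Fin k → ℕ),
      (∀ j, IsAlgebraic ℚ (β j)) →
      LinearIndependent ℚ (Fin.cons 1 (fun j => β j * θ ^ w j) : Fin (k + 1) → ℝ) →
      PowersRandom (fun j => β j * θ ^ w j)) := by
  refine ⟨?_, ?_, ?_, ?_⟩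
  · obtain ⟨c, τ, hc, h⟩ := Pool.Agent.X121.TV.JFT_two Pool.Agent.X121.TV.MT_exp
    exact of_jft hc (Pool.Agent.X121.TV.FT_of_JFT_two h)
  · obtain ⟨c, τ, hc, h⟩ := Pool.Agent.X121.TV.JFT_two Pool.Agent.X121.TV.MT_pi
    exact of_jft hc (Pool.Agent.X121.TV.FT_of_JFT_two h)
  · intro x hirr hL
    obtain ⟨c, τ, hc, -, h⟩ := Pool.Agent.X121.AB.FT_of hirr hL
    exact of_jft hc (Pool.Agent.X121.TV.JFT_of_FT hc h)
  · rintro θ (rfl | rfl) k β w hβ hli
    · obtain ⟨c, τ, hc, h⟩ := Pool.Agent.X121.TV.JFT_alg Pool.Agent.X121.TV.MT_exp β w hβ hli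
      exact of_jft hc h
    · obtain ⟨c, τ, hc, h⟩ := Pool.Agent.X121.TV.JFT_alg Pool.Agent.X121.TV.MT_pi β w hβ hli
      exact of_jft hc h

end Pool.Agent.Results.MP_9056e9_nt.IntegerTranslates
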