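import Mathlib
import Pool.Agent.X121.GS.Dil

/-!
# The powers of `e` and of `π`, multiplied by the square root of a random integer

For a random integer `n` in `(N, N + N ^ η]` the fractional parts of the numbers `√n e ^ k` (or
`n ^ θ π ^ k`, for a fixed `θ > 0` which is not an integer), for `k` in several blocks of consecutive
exponents up to `(log N) ^ (9 / 8)`, are jointly close in total variation to independent uniform
variables, on the scale `exp (-(log N) ^ (1 / 8))`. The multipliers `n ^ θ` are of size only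
`exp (k ^ (8 / 9))`, while `e ^ k` runs through much larger numbers.

The proof uses bounds for the exponential sums `∑_n e(P(e) e ^ c n ^ θ)`, for integral polynomials `P`
of bounded degree, by a local approximation with polynomials of high degree and Vinogradov's mean
value theorem with explicit constants; measures of transcendence of `e` and of `π`; and trigonometric
majorants.
-/

set_option autoImplicit false

open Real

namespace Pool.Agent.Results.MP_9056e9_nt.RandomMultiples

/-- The index of the part of `[0, 1)` which contains the fractional part of `x`, when `[0, 1)` is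
divided into `m` equal parts. -/
noncomputable def part (m : ℕ) (x : ℝ) : ℕ := ⌊(m : ℝ) * Int.fract x⌋₊

/-- Let `D` be an integer, `θ > 0` not an integer, `0 < η ≤ 1`. There is `N₀` such that for all
`N ≥ N₀` and `N ^ η ≤ H ≤ N`, for all `r` blocks `c i, c i + 1, …, c i + D` of exponents, `i < r`,
with `r (D + 1) ≤ (log N) ^ (1 / 8)`, gaps `c j - c i ≥ (log N) ^ (1 / 6)` (`i < j`),
`β ^ (c i) ≥ N ^ (9 / η)` and `β ^ (c i + D) ≤ exp ((log N) ^ (9 / 8))`, every
`1 ≤ m ≤ exp ((log N) ^ (1 / 8))` and every set `E` of `r × (D + 1)` arrays of numbers less than `m`: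
the proportion of the integers `n ∈ (N, N + H]` such that the array of the numbers
`⌊m {n ^ θ β ^ (c i + j)}⌋` is in `E` is `|E| / m ^ (r (D + 1))` up to an error of at most
`exp (-(log N) ^ (1 / 8))`. -/
def MultiplesRandom (β : ℝ) : Prop :=
  ∀ (D : ℕ) (θ η : ℝ), 0 < θ → (∀ a : ℕ, θ ≠ a) → 0 < η → η ≤ 1 →
    ∃ N₀ : ℕ, ∀ N H : ℕ, N₀ ≤ N → (N : ℝ) ^ η ≤ H → H ≤ N → ∀ (r m : ℕ) (c : Fin r → ℕ),
      (r * (D + 1) : ℝ) ≤ log N ^ (1 / 8 : ℝ) → 1 ≤ m → (m : ℝ) ≤ exp (log N ^ (1 / 8 : ℝ)) →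
      (∀ i j, i < j → (c i : ℝ) + log N ^ (1 / 6 : ℝ) ≤ c j) →
      (∀ i, (N : ℝ) ^ (9 / η) ≤ β ^ c i) →
      (∀ i, β ^ (c i + D) ≤ exp (log N ^ (9 / 8 : ℝ))) →
      ∀ E : Finset (Fin r × Fin (D + 1) → Fin m),
      |({n : ℕ | N < n ∧ n ≤ N + H ∧ ∃ w ∈ E, ∀ (i : Fin r) (j : Fin (D + 1)),
          part m ((n : ℝ) ^ θ * β ^ (c i + j)) = w (i, j)}.ncard : ℝ) / H -
        E.card / (m : ℝ) ^ (r * (D + 1))| ≤ exp (-(log N ^ (1 / 8 : ℝ)))

/-- **Random multiples of the powers of `e` and `π`.** -/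
theorem result : MultiplesRandom (exp 1) ∧ MultiplesRandom π := by
  classical
  have key : ∀ β : ℝ, Pool.Agent.X121.TV.MT β → 1 < β → MultiplesRandom β := by
    intro β hβ hβ1 D θ η hθ0 hθ hη hη1
    obtain ⟨N₀, hN₀⟩ := Pool.Agent.X121.GS.dil_main hβ hβ1 D hθ0 hθ hη hη1
    refine ⟨N₀, fun N H hN hH1 hH2 r m c h1 hm hmy h2 h3 h4 E => ?_⟩
    have h := hN₀ N H hN hH1 hH2 r m c h1 hm hmy h2 h3 h4 E
    refine le_trans (le_of_eq ?_) h
    congr 3
    rw [← Set.ncard_coe_finset]
    congr 2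
    ext n
    simp only [Set.mem_ofPred_eq, Finset.coe_filter, Finset.mem_Ioc, part, Prod.forall]
    tauto
  exact ⟨key _ Pool.Agent.X121.TV.MT_exp (by rw [one_lt_exp_iff]; norm_num),
    key _ Pool.Agent.X121.TV.MT_pi (by linarith [pi_gt_three])⟩

end Pool.Agent.Results.MP_9056e9_nt.RandomMultiples
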